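import Pool.Agent.helper7.AL.SpecM
import Pool.Agent.helper31.AL.CNT

/-!
Row MCN of project AL: locally possible numbers in a residue class.
-/

set_option autoImplicit false

namespace Pool.Agent.AL

open Finset Pool.Agent.helper85.FC Pool.Agent.helper11.MK

/-- Units modulo a prime with a given difference. -/
theorem MCN_unit (a b l : ℕ) (c : ℤ) (hl : l.Prime) (hP : Poss a b c) :
    ∃ h h' : ℤ, (l : ℤ) ∣ c - (a * h - b * h') ∧ ¬ (l : ℤ) ∣ h ∧ ¬ (l : ℤ) ∣ h' := by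
  obtain ⟨-, -, -, hab, hac, hbc, hodd⟩ := hP
  have hlp : Prime (l : ℤ) := Nat.prime_iff_prime_int.1 hl
  have h1 : ¬ (l : ℤ) ∣ 1 := hlp.not_dvd_one
  by_cases ha : l ∣ a
  · have ha' : (l : ℤ) ∣ (a : ℤ) := Int.natCast_dvd_natCast.2 ha
    have hb' : ¬ (l : ℤ) ∣ (b : ℤ) := by
      intro hb
      have := Nat.dvd_gcd ha (Int.natCast_dvd_natCast.1 hb)
      rw [Nat.Coprime.gcd_eq_one hab] at this
      exact hl.one_lt.ne' (Nat.dvd_one.1 this)
    have hc' : ¬ (l : ℤ) ∣ c := fun hc => hlp.not_isUnit (hac.isUnit_of_dvd' ha' hc)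
    obtain ⟨h', hh⟩ := CNT_inv l hl b hb' (-c)
    refine ⟨1, h', ?_, h1, fun hd => hc' ?_⟩
    · have := dvd_add hh ha'
      have e : -c - b * h' + a = -(c - (a * 1 - b * h')) := by ring
      rw [e] at this
      exact dvd_neg.1 this
    · have := dvd_add hh (hd.mul_left (b : ℤ))
      have e : -c - b * h' + b * h' = -c := by ring
      rw [e] at this
      exact dvd_neg.1 this
  · have ha' : ¬ (l : ℤ) ∣ (a : ℤ) := fun h => ha (Int.natCast_dvd_natCast.1 h)
    by_cases hb : l ∣ b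
    · have hb' : (l : ℤ) ∣ (b : ℤ) := Int.natCast_dvd_natCast.2 hb
      have hc' : ¬ (l : ℤ) ∣ c := fun hc => hlp.not_isUnit (hbc.isUnit_of_dvd' hb' hc)
      obtain ⟨h, hh⟩ := CNT_inv l hl a ha' c
      refine ⟨h, 1, ?_, fun hd => hc' ?_, h1⟩
      · have := dvd_add hh hb'
        have e : c - a * h + b = c - (a * h - b * 1) := by ring
        rwa [e] at this
      · have := dvd_add hh (hd.mul_left (a : ℤ))
        have e : c - a * h + a * h = c := by ring
        rwa [e] at this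
    · have hb' : ¬ (l : ℤ) ∣ (b : ℤ) := fun h => hb (Int.natCast_dvd_natCast.1 h)
      have key : ∃ h : ℤ, ¬ (l : ℤ) ∣ h ∧ ¬ (l : ℤ) ∣ a * h - c := by
        by_cases hl2 : l = 2
        · refine ⟨1, h1, ?_⟩
          rw [hl2] at ha hb ⊢
          have hao : Odd a := Nat.not_even_iff_odd.1 fun h => ha h.two_dvd
          have hbo : Odd b := Nat.not_even_iff_odd.1 fun h => hb h.two_dvd
          have hce : Even c := Int.not_odd_iff_even.1 fun h => hodd ⟨hao, hbo, h⟩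
          intro hd
          obtain ⟨x, hx⟩ := hao
          obtain ⟨y, hy⟩ := hce
          have : ((2 : ℕ) : ℤ) ∣ (a : ℤ) * 1 - c := hd
          rw [hx, hy] at this
          push_cast at this
          omega
        · by_cases h2 : (l : ℤ) ∣ a * 1 - c
          · refine ⟨-1, fun h => h1 (dvd_neg.1 h), fun h3 => ?_⟩
            have h4 := dvd_sub h2 h3
            have e : (a : ℤ) * 1 - c - (a * (-1) - c) = 2 * a := by ring
            rw [e] at h4
            rcases hlp.dvd_or_dvd h4 with h5 | h5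
            · have h6 : l ∣ 2 := by exact_mod_cast h5
              exact hl2 ((Nat.prime_dvd_prime_iff_eq hl Nat.prime_two).1 h6)
            · exact ha' h5
          · exact ⟨1, h1, h2⟩
      obtain ⟨h, hh1, hh2⟩ := key
      obtain ⟨h', hh⟩ := CNT_inv l hl b hb' (a * h - c)
      refine ⟨h, h', ?_, hh1, fun hd => hh2 ?_⟩
      · have e : (a : ℤ) * h - c - b * h' = -(c - (a * h - b * h')) := by ring
        rw [e] at hh
        exact dvd_neg.1 hh
      · have := dvd_add hh (hd.mul_left (b : ℤ))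
        have e : (a : ℤ) * h - c - b * h' + b * h' = a * h - c := by ring
        rwa [e] at this

/-- All classes are possible at the primes of the modulus. -/
theorem MCN_locm (a b l : ℕ) (u₀ c' c : ℤ) (hl : l.Prime) (hP : Poss a b c') (hu : (l : ℤ) ∣ u₀)
    (hc : (l : ℤ) ∣ c - c') : Loc a b u₀ l c := by
  obtain ⟨h, h', h1, h2, h3⟩ := MCN_unit a b l c' hl hP
  refine ⟨h, h', ?_, h2, fun hd => h2 ?_, h3, fun hd => h3 ?_⟩
  · have := dvd_add h1 hc
    have e : c' - (a * h - b * h') + (c - c') = c - (a * h - b * h') := by ring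
    rwa [e] at this
  · exact (dvd_add_left hu).1 hd
  · exact (dvd_add_left hu).1 hd

open Classical in
/-- The number of classes does not change under an affine map. -/
theorem MCN_aff (a b l m : ℕ) (u₀ c' : ℤ) (hl : l.Prime) (hm : ¬ l ∣ m) :
    #{r ∈ range l | Loc a b u₀ l (r : ℕ)} ≤ #{r ∈ range l | Loc a b u₀ l (c' + m * ((r : ℕ) : ℤ))} := by
  have hl0 : (0 : ℤ) < l := by exact_mod_cast hl.pos
  have hm' : ¬ (l : ℤ) ∣ (m : ℤ) := fun h => hm (Int.natCast_dvd_natCast.1 h)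
  refine Finset.card_le_card_of_surjOn (fun r : ℕ => ((c' + m * (r : ℤ)) % l).toNat) ?_
  intro s hs
  obtain ⟨hs1, hs2⟩ := Finset.mem_filter.1 (Finset.mem_coe.1 hs)
  rw [Finset.mem_range] at hs1
  obtain ⟨h, hh⟩ := CNT_inv l hl m hm' (s - c')
  have hr0 : 0 ≤ h % l := Int.emod_nonneg _ hl0.ne'
  have hr1 : h % l < l := Int.emod_lt_of_pos _ hl0
  have hcast : (((h % l).toNat : ℕ) : ℤ) = h % l := Int.toNat_of_nonneg hr0
  have hkey : (l : ℤ) ∣ (s : ℤ) - (c' + m * (h % l)) := by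
    have e : (s : ℤ) - (c' + m * (h % l)) = (s - c' - m * h) + l * (m * (h / l)) := by
      have := Int.emod_add_mul_ediv h l
      linear_combination (-(m : ℤ)) * this
    rw [e]
    exact dvd_add hh (dvd_mul_right _ _)
  refine ⟨(h % l).toNat, ?_, ?_⟩
  · refine Finset.mem_coe.2 (Finset.mem_filter.2 ⟨Finset.mem_range.2 (by omega), ?_⟩)
    rw [hcast]
    obtain ⟨k, hk⟩ := hkey
    have e : c' + m * (h % l) = (s : ℤ) + l * (-k) := by linear_combination -hk
    rw [e, CNT_per]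
    exact hs2
  · show ((c' + m * (((h % l).toNat : ℕ) : ℤ)) % l).toNat = s
    rw [hcast]
    have h1 : (c' + m * (h % l)) % l = (s : ℤ) % l := Int.modEq_iff_dvd.2 hkey
    rw [h1, Int.emod_eq_of_lt (by omega) (by exact_mod_cast hs1)]
    simp

/-- The primes dividing `6 a b`. -/
theorem MCN_six (a b : ℕ) (hab0 : a * b ≠ 0) :
    (6 * a * b).primeFactors = insert 2 (insert 3 ((a * b).primeFactors.filter fun l => 5 ≤ l)) := by
  have h6 : 6 * a * b ≠ 0 := by
    rw [mul_assoc]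
    exact Nat.mul_ne_zero (by norm_num) hab0
  ext l
  rw [mem_insert, mem_insert, mem_filter, Nat.mem_primeFactors, Nat.mem_primeFactors]
  constructor
  · rintro ⟨hl, hd, -⟩
    rw [mul_assoc, hl.dvd_mul] at hd
    have hl2 := hl.two_le
    rcases hd with hd | hd
    · have h7 : l ∣ 2 * 3 := hd
      rw [hl.dvd_mul, Nat.prime_dvd_prime_iff_eq hl Nat.prime_two, Nat.prime_dvd_prime_iff_eq hl Nat.prime_three] at h7
      tauto
    · by_cases h5 : 5 ≤ l
      · exact Or.inr (Or.inr ⟨⟨hl, hd, hab0⟩, h5⟩)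
      · have h7 : l = 2 ∨ l = 3 ∨ l = 4 := by omega
        rcases h7 with h7 | h7 | h7
        · exact Or.inl h7
        · exact Or.inr (Or.inl h7)
        · rw [h7] at hl
          exact absurd hl (by decide)
  · rintro (rfl | rfl | ⟨⟨hl, hd, -⟩, -⟩)
    · exact ⟨Nat.prime_two, Dvd.intro (3 * a * b) (by ring), h6⟩
    · exact ⟨Nat.prime_three, Dvd.intro (2 * a * b) (by ring), h6⟩
    · refine ⟨hl, ?_, h6⟩
      rw [mul_assoc]
      exact hd.mul_left 6

/-- Products over the primes dividing `6 a b` and not `m`. -/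
theorem MCN_prod (a b m : ℕ) (hab0 : a * b ≠ 0) (g : ℕ → ℝ) :
    ∏ l ∈ (6 * a * b).primeFactors with ¬ l ∣ m, g l =
      (if 2 ∣ m then 1 else g 2) * ((if 3 ∣ m then 1 else g 3) *
        ∏ l ∈ (a * b).primeFactors with 5 ≤ l ∧ ¬ l ∣ m, g l) := by
  have hn3 : 3 ∉ (a * b).primeFactors.filter fun l => 5 ≤ l := by
    rw [mem_filter]
    rintro ⟨-, h7⟩
    omega
  have hn2 : 2 ∉ insert 3 ((a * b).primeFactors.filter fun l => 5 ≤ l) := by
    rw [mem_insert, mem_filter]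
    rintro (h7 | ⟨-, h7⟩)
    · omega
    · omega
  rw [Finset.prod_filter, MCN_six a b hab0, prod_insert hn2, prod_insert hn3, ← Finset.prod_filter,
    Finset.filter_filter]
  by_cases h2 : 2 ∣ m <;> by_cases h3 : 3 ∣ m <;> simp [h2, h3]

/-- Row MCN. -/
theorem MCN (h : Pool.Agent.helper11.TX.CR_stmt) : MCN_stmt := by
  classical
  intro m a b u₀ c' hm hu hP
  obtain ⟨ha, hb, hc0, hab, hac, hbc, hodd⟩ := id hP
  have hab0 : a * b ≠ 0 := Nat.mul_ne_zero ha.ne' hb.ne'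
  have h6 : 6 * a * b ≠ 0 := by
    rw [mul_assoc]
    exact Nat.mul_ne_zero (by norm_num) hab0
  have hmR : (0 : ℝ) < m := by exact_mod_cast hm
  have hu2 : Even u₀ := by
    obtain ⟨k, hk⟩ := hu
    refine ⟨m * k, ?_⟩
    rw [hk]
    push_cast
    ring
  have hum : ∀ l : ℕ, l ∣ m → (l : ℤ) ∣ u₀ := fun l hl => by
    refine dvd_trans ?_ hu
    exact Int.natCast_dvd_natCast.2 (hl.mul_left 2)
  obtain ⟨f, hf⟩ : ∃ f : ℕ → ℤ → ℝ, f = fun l t => if Loc a b u₀ l (c' + m * t) then 1 else 0 := ⟨_, rfl⟩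
  obtain ⟨P, hPd⟩ : ∃ P : Finset ℕ, P = (6 * a * b).primeFactors.filter (fun l => ¬ l ∣ m) := ⟨_, rfl⟩
  have hPp : ∀ l ∈ P, l.Prime := by
    intro l hl
    rw [hPd, mem_filter] at hl
    exact Nat.prime_of_mem_primeFactors hl.1
  have hf0 : ∀ l t, 0 ≤ f l t := by
    intro l t
    rw [hf]
    simp only
    split_ifs <;> norm_num
  have hsum : ∀ l : ℕ, ∑ r ∈ range l, f l r = #{r ∈ range l | Loc a b u₀ l (c' + m * ((r : ℕ) : ℤ))} := by
    intro l
    rw [hf, Finset.sum_boole]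
  have hsum2 : ∀ l : ℕ, l.Prime → ¬ l ∣ m →
      (#{r ∈ range l | Loc a b u₀ l (r : ℕ)} : ℝ) ≤ ∑ r ∈ range l, f l r := by
    intro l hl hlm
    rw [hsum l]
    exact_mod_cast MCN_aff a b l m u₀ c' hl hlm
  obtain ⟨T, hT⟩ : ∃ T : ℝ, T = ∏ l ∈ P, ∑ r ∈ range l, f l r := ⟨_, rfl⟩
  obtain ⟨D, hD⟩ : ∃ D : ℝ, D = ∏ l ∈ P, (l : ℝ) := ⟨_, rfl⟩
  have hD0 : 0 < D := by
    rw [hD]
    exact prod_pos fun l hl => by exact_mod_cast (hPp l hl).pos
  have hT0 : 0 ≤ T := by
    rw [hT]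
    exact prod_nonneg fun l _ => sum_nonneg fun r _ => hf0 l r
  refine ⟨T / D + T, ?_⟩
  intro u M
  set v : ℤ := (u - c') / m with hv
  set L : ℕ := M / m with hL
  have hmZ : (0 : ℤ) < m := by exact_mod_cast hm
  have hv1 : m * v ≤ u - c' := Int.mul_ediv_self_le hmZ.ne'
  have hv2 : u - c' < m * (v + 1) := by
    have := Int.lt_ediv_add_one_mul_self (u - c') hmZ
    rw [mul_comm]
    exact this
  have hL1 : (m : ℤ) * L ≤ M := by exact_mod_cast Nat.mul_div_le M m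
  have hL2 : (M : ℝ) / m - 1 ≤ L := by
    have h1 : M < m * (M / m + 1) := Nat.lt_mul_div_succ M hm
    have h2 : (M : ℝ) < m * (L + 1) := by exact_mod_cast h1
    have h3 : (M : ℝ) / m < L + 1 := by
      rw [div_lt_iff₀ hmR]
      linarith
    linarith
  have hcount : ∑ t ∈ Ioc v (v + L), ∏ l ∈ P, f l t = #{t ∈ Ioc v (v + L) | S0 a b u₀ (c' + m * t)} := by
    rw [Finset.card_filter]
    push_cast
    apply sum_congr rfl
    intro t _
    rw [hf]
    simp only
    by_cases hS : S0 a b u₀ (c' + m * t)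
    · rw [if_pos hS]
      apply prod_eq_one
      intro l hl
      rw [if_pos]
      rw [hPd, mem_filter, Nat.mem_primeFactors] at hl
      exact hS l hl.1.1 hl.1.2.1
    · rw [if_neg hS]
      have hS' : ∃ l : ℕ, l.Prime ∧ l ∣ 6 * a * b ∧ ¬ Loc a b u₀ l (c' + m * t) := by
        by_contra hne
        apply hS
        intro l hl hd
        by_contra hL'
        exact hne ⟨l, hl, hd, hL'⟩
      obtain ⟨l, hl, hd, hL'⟩ := hS'
      have hlm : ¬ l ∣ m := by
        intro hlm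
        refine hL' (MCN_locm a b l u₀ c' _ hl hP (hum l hlm) ?_)
        have e : c' + m * t - c' = m * t := by ring
        rw [e]
        exact (Int.natCast_dvd_natCast.2 hlm).mul_right t
      apply prod_eq_zero (i := l)
      · rw [hPd, mem_filter, Nat.mem_primeFactors]
        exact ⟨⟨hl, hd, h6⟩, hlm⟩
      · rw [if_neg hL']
  have hinj : (#{t ∈ Ioc v (v + L) | S0 a b u₀ (c' + m * t)} : ℝ) ≤
      #{c ∈ Ioc u (u + M) | (m : ℤ) ∣ c - c' ∧ S0 a b u₀ c} := by
    have h1 : #{t ∈ Ioc v (v + L) | S0 a b u₀ (c' + m * t)} ≤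
        #{c ∈ Ioc u (u + M) | (m : ℤ) ∣ c - c' ∧ S0 a b u₀ c} := by
      refine Finset.card_le_card_of_injOn (fun t : ℤ => c' + m * t) ?_ ?_
      · intro t ht
        obtain ⟨ht1, ht2⟩ := Finset.mem_filter.1 (Finset.mem_coe.1 ht)
        rw [Finset.mem_Ioc] at ht1
        refine Finset.mem_coe.2 (Finset.mem_filter.2 ⟨Finset.mem_Ioc.2 ⟨?_, ?_⟩, ?_, ht2⟩)
        · have h2 : (m : ℤ) * (v + 1) ≤ m * t := mul_le_mul_of_nonneg_left (by omega) hmZ.le
          show u < c' + m * t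
          linarith
        · have h2 : (m : ℤ) * t ≤ m * (v + L) := mul_le_mul_of_nonneg_left ht1.2 hmZ.le
          show c' + m * t ≤ u + M
          have h3 : (m : ℤ) * (v + L) = m * v + m * L := by ring
          linarith
        · show (m : ℤ) ∣ c' + m * t - c'
          exact ⟨t, by ring⟩
      · intro t _ t' _ htt
        have h2 : c' + (m : ℤ) * t = c' + m * t' := htt
        have h3 : (m : ℤ) * t = m * t' := by linarith
        exact mul_left_cancel₀ hmZ.ne' h3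
    exact_mod_cast h1
  have hmain := (h P f hPp (fun l _ c => hf0 l c) (by
    intro l _ t k
    rw [hf]
    simp only
    have e : c' + (m : ℤ) * (t + l * k) = c' + m * t + l * (m * k) := by ring
    rw [e, CNT_per a b u₀ l (c' + m * t) (m * k)]) v L).2
  rw [hcount, ← hT, ← hD] at hmain
  refine le_trans ?_ (hmain.trans hinj)
  -- the products
  obtain ⟨R, hR⟩ : ∃ R : Finset ℕ, R = (a * b).primeFactors.filter (fun l => 5 ≤ l ∧ ¬ l ∣ m) := ⟨_, rfl⟩
  have hlpos : ∀ l ∈ R, (0 : ℝ) < l := by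
    intro l hl
    rw [hR, mem_filter] at hl
    have : 0 < l := by omega
    exact_mod_cast this
  have hR2 : ∀ l ∈ R, (1 - 2 / (l : ℝ)) ≤ (∑ r ∈ range l, f l r) / l := by
    intro l hl
    have hl0 := hlpos l hl
    rw [hR, mem_filter, Nat.mem_primeFactors] at hl
    obtain ⟨⟨hlp, hld, -⟩, h5, hlm⟩ := hl
    rw [le_div_iff₀ hl0]
    have e : (1 - 2 / (l : ℝ)) * l = l - 2 := by field_simp
    rw [e]
    refine le_trans ?_ (hsum2 l hlp hlm)
    rw [hlp.dvd_mul] at hld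
    rcases hld with hld | hld
    · have hnb : ¬ l ∣ b := fun hb' => by
        have := Nat.dvd_gcd hld hb'
        rw [Nat.Coprime.gcd_eq_one hab] at this
        exact hlp.one_lt.ne' (Nat.dvd_one.1 this)
      exact CNT_ge a b u₀ l _ (fun c hc hc2 => CNT_loca a b u₀ l hlp h5 hld hnb c hc hc2)
    · have hna : ¬ l ∣ a := fun ha' => by
        have := Nat.dvd_gcd ha' hld
        rw [Nat.Coprime.gcd_eq_one hab] at this
        exact hlp.one_lt.ne' (Nat.dvd_one.1 this)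
      exact CNT_ge a b u₀ l _ (fun c hc hc2 => CNT_locb a b u₀ l hlp h5 hld hna c hc hc2)
  have hR0 : ∀ l ∈ R, 0 ≤ (1 - 2 / (l : ℝ)) := by
    intro l hl
    rw [hR, mem_filter] at hl
    have h5 : (5 : ℝ) ≤ l := by exact_mod_cast hl.2.1
    rw [sub_nonneg, div_le_one (by linarith)]
    linarith
  have hle : ∏ l ∈ R, (1 - 2 / (l : ℝ)) ≤ ∏ l ∈ R, ((∑ r ∈ range l, f l r) / l) := prod_le_prod hR0 hR2
  have hX0 : 0 ≤ ∏ l ∈ R, (1 - 2 / (l : ℝ)) := prod_nonneg hR0
  have hTD : T / D = (if 2 ∣ m then 1 else (∑ r ∈ range 2, f 2 r) / (2 : ℕ)) *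
      ((if 3 ∣ m then 1 else (∑ r ∈ range 3, f 3 r) / (3 : ℕ)) * ∏ l ∈ R, ((∑ r ∈ range l, f l r) / l)) := by
    rw [hT, hD, ← prod_div_distrib, hPd, MCN_prod a b m hab0 (fun l => (∑ r ∈ range l, f l r) / (l : ℝ)), ← hR]
  have hα : (if 2 ∣ m then (1 : ℝ) else 1 / 2) ≤ (if 2 ∣ m then 1 else (∑ r ∈ range 2, f 2 r) / (2 : ℕ)) := by
    split_ifs with h2
    · exact le_rfl
    · have h3 := (CNT_two a b u₀ hu2).trans (hsum2 2 Nat.prime_two h2)
      push_cast
      linarith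
  have hβ : (if 3 ∣ m then (1 : ℝ) else (#{r ∈ range 3 | Loc a b u₀ 3 (r : ℕ)} : ℝ) / 3) ≤
      (if 3 ∣ m then 1 else (∑ r ∈ range 3, f 3 r) / (3 : ℕ)) := by
    split_ifs with h3
    · exact le_rfl
    · have h4 := hsum2 3 Nat.prime_three h3
      push_cast
      linarith
  have hα0 : (0 : ℝ) ≤ (if 2 ∣ m then (1 : ℝ) else 1 / 2) := by split_ifs <;> norm_num
  have hβ0 : (0 : ℝ) ≤ (if 3 ∣ m then (1 : ℝ) else (#{r ∈ range 3 | Loc a b u₀ 3 (r : ℕ)} : ℝ) / 3) := by
    split_ifs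
    · norm_num
    · exact div_nonneg (Nat.cast_nonneg _) (by norm_num)
  obtain ⟨α, hαd⟩ : ∃ α : ℝ, α = (if 2 ∣ m then (1 : ℝ) else 1 / 2) := ⟨_, rfl⟩
  obtain ⟨β, hβd⟩ : ∃ β : ℝ, β = (if 3 ∣ m then (1 : ℝ) else (#{r ∈ range 3 | Loc a b u₀ 3 (r : ℕ)} : ℝ) / 3) := ⟨_, rfl⟩
  obtain ⟨X, hX⟩ : ∃ X : ℝ, X = ∏ l ∈ R, (1 - 2 / (l : ℝ)) := ⟨_, rfl⟩
  have hprod : α * (β * X) ≤ T / D := by
    rw [hTD, hαd, hβd, hX]
    refine mul_le_mul hα (mul_le_mul hβ hle hX0 (hβ0.trans hβ)) (mul_nonneg hβ0 hX0) (hα0.trans hα)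
  rw [← hαd, ← hβd, ← hR, ← hX]
  have hTD0 : 0 ≤ T / D := div_nonneg hT0 hD0.le
  have h1 : (L : ℝ) / D * T = L * (T / D) := by ring
  have h2 : ((M : ℝ) / m - 1) * (T / D) ≤ L * (T / D) := mul_le_mul_of_nonneg_right hL2 hTD0
  have h3 : (M : ℝ) / m * (α * (β * X)) ≤ (M : ℝ) / m * (T / D) :=
    mul_le_mul_of_nonneg_left hprod (by positivity)
  have h4 : 1 / (m : ℝ) * α * β * X * M = (M : ℝ) / m * (α * (β * X)) := by ring
  rw [h4]
  have h5 : ((L : ℝ) / D - 1) * T = L / D * T - T := by ring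
  rw [h5, h1]
  linarith

end Pool.Agent.AL
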