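import Pool.Agent.helper7.AL.Spec

/-!
Row GPC of project AL: many true cases for every locally possible number.
-/

set_option autoImplicit false

namespace Pool.Agent.AL

open Finset Pool.Agent.helper85.FC Pool.Agent.helper11.MK

/-- Row GPC. -/
theorem GPC (hGP1 : GP1_stmt) (hLCB : LCB_stmt) (hHEX : HEX_stmt) (hBOX : BOX_stmt) (hAVG : AVG_stmt) :
    GPC_stmt := by
  classical
  intro k hk hB ε hε
  obtain ⟨L₀, hL₀⟩ := hBOX k ε hε
  refine ⟨L₀, ?_⟩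
  intro L a b X Y u₀ hL ha hb hab hX hY hXd hYd hbad c₀ hS hne
  obtain ⟨h, h', hc, hl⟩ := hHEX a b u₀ c₀ ha hb hab hS
  have hdisj : Disjoint X Y := by
    rw [Finset.disjoint_left]
    intro x hx hy
    exact (hbad x hx x hy).1 (sub_self x)
  refine hAVG L X Y (fun z z' => TrueCase a b (c₀ + a * z - b * z')) ε hX hY hdisj ?_
  by_contra hcon
  rw [not_le] at hcon
  obtain ⟨X₁, hX₁, Y₁, hY₁, X₂, hX₂, Y₂, hY₂, cX₁, cY₁, cX₂, cY₂, hbox⟩ :=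
    hL₀ L X Y _ hL hX hY (Finset.filter_subset _ _) hcon.le
  have hne' : ∀ z ∈ X₁ ∪ Y₁, ∀ z' ∈ X₂ ∪ Y₂, (a : ℤ) * (h + z) ≠ b * (h' + z') := by
    intro z hz z' hz' heq
    refine hne z (Finset.union_subset_union hX₁ hY₁ hz) z' (Finset.union_subset_union hX₂ hY₂ hz') ?_
    rw [← hc]
    linear_combination heq
  have hadm := hLCB k a b X₁ Y₁ X₂ Y₂ u₀ h h' ha hb cX₁ cY₁ cX₂ cY₂
    (fun x hx => hXd x (Finset.union_subset hX₁ hX₂ hx)) (fun y hy => hYd y (Finset.union_subset hY₁ hY₂ hy)) hl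
  obtain ⟨z, hz, z', hz', htr⟩ := hGP1 k a b X₁ Y₁ X₂ Y₂ h h' hB ha hb hab cX₁ cY₁ cX₂ cY₂
    (fun x hx y hy => hbad x (hX₁ hx) y (hY₁ hy)) (fun x hx y hy => hbad x (hX₂ hx) y (hY₂ hy)) hne' hadm
  have heq : (a : ℤ) * (h + z) - b * (h' + z') = c₀ + a * z - b * z' := by
    rw [← hc]; ring
  rw [heq] at htr
  obtain ⟨x1, hx1⟩ : X₁.Nonempty := Finset.card_pos.1 (by omega)
  obtain ⟨y1, hy1⟩ : Y₁.Nonempty := Finset.card_pos.1 (by omega)
  obtain ⟨x2, hx2⟩ : X₂.Nonempty := Finset.card_pos.1 (by omega)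
  obtain ⟨y2, hy2⟩ : Y₂.Nonempty := Finset.card_pos.1 (by omega)
  rcases Finset.mem_union.1 hz with hz | hz <;> rcases Finset.mem_union.1 hz' with hz' | hz'
  · exact (Finset.mem_filter.1 (hbox z hz y1 hy1 z' hz' y2 hy2)).2.1 htr
  · exact (Finset.mem_filter.1 (hbox z hz y1 hy1 x2 hx2 z' hz')).2.2.1 htr
  · exact (Finset.mem_filter.1 (hbox x1 hx1 z hz z' hz' y2 hy2)).2.2.2.1 htr
  · exact (Finset.mem_filter.1 (hbox x1 hx1 z hz x2 hx2 z' hz')).2.2.2.2 htr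

end Pool.Agent.AL
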