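import Pool.Agent.helper7.AL.Spec

/-!
Row SUM of project AL: double counting of the shifts of an interval.
-/

set_option autoImplicit false

namespace Pool.Agent.AL

open Finset Pool.Agent.helper85.FC Pool.Agent.helper11.MK

/-- The class of `z`. -/
def SUM_tau (X : Finset ℤ) (z : ℤ) : ℕ := if z ∈ X then 0 else 1

theorem SUM_sum (X Y : Finset ℤ) (L : ℕ) (hX : #X = L) (hY : #Y = L) (hd : Disjoint X Y) (f : ℕ → ℝ) :
    ∑ z ∈ X ∪ Y, f (SUM_tau X z) = L * ∑ t ∈ range 2, f t := by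
  rw [Finset.sum_union hd]
  have h1 : ∑ z ∈ X, f (SUM_tau X z) = L * f 0 := by
    rw [← hX, ← nsmul_eq_mul, ← Finset.sum_const]
    exact Finset.sum_congr rfl fun z hz => by simp [SUM_tau, hz]
  have h2 : ∑ z ∈ Y, f (SUM_tau X z) = L * f 1 := by
    rw [← hY, ← nsmul_eq_mul, ← Finset.sum_const]
    refine Finset.sum_congr rfl fun z hz => ?_
    have : z ∉ X := fun h => (Finset.disjoint_left.1 hd h) hz
    simp [SUM_tau, this]
  rw [h1, h2, Finset.sum_range_succ, Finset.sum_range_one]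
  ring

theorem SUM_sum2 (X Y : Finset ℤ) (L : ℕ) (hX : #X = L) (hY : #Y = L) (hd : Disjoint X Y) (f : ℕ × ℕ → ℝ) :
    ∑ p ∈ (X ∪ Y) ×ˢ (X ∪ Y), f (SUM_tau X p.1, SUM_tau X p.2) = (L : ℝ) ^ 2 * ∑ t ∈ (range 2) ×ˢ (range 2), f t := by
  rw [Finset.sum_product, Finset.sum_product]
  have h1 : ∀ z ∈ X ∪ Y, ∑ z' ∈ X ∪ Y, f (SUM_tau X z, SUM_tau X z') =
      L * ∑ t ∈ range 2, f (SUM_tau X z, t) := fun z _ =>
    SUM_sum X Y L hX hY hd (fun t => f (SUM_tau X z, t))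
  rw [Finset.sum_congr rfl h1, ← Finset.mul_sum,
    SUM_sum X Y L hX hY hd (fun s => ∑ t ∈ range 2, f (s, t))]
  ring

theorem SUM_shift (Q : ℤ → Prop) (u g : ℤ) (M : ℕ) [DecidablePred Q] [DecidablePred fun c => Q (c + g)] :
    (#{c ∈ Ioc u (u + M) | Q (c + g)} : ℝ) ≤ #{c ∈ Ioc u (u + M) | Q c} + 2 * |(g : ℝ)| := by
  set A := {c ∈ Ioc u (u + M) | Q (c + g)} with hA
  set B := {c ∈ Ioc u (u + M) | Q c} with hB
  set m : ℤ := |g| with hm
  have h1 : A.image (fun c => c + g) ⊆ B ∪ (Ioc (u + M) (u + M + m) ∪ Ioc (u - m) u) := by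
    intro x hx
    obtain ⟨c, hc, rfl⟩ := Finset.mem_image.1 hx
    obtain ⟨hc1, hc2⟩ := Finset.mem_filter.1 hc
    rw [Finset.mem_Ioc] at hc1
    have h2 : g ≤ m := le_abs_self g
    have h3 : -m ≤ g := neg_abs_le g
    rw [Finset.mem_union, Finset.mem_union, Finset.mem_Ioc, Finset.mem_Ioc]
    by_cases h4 : c + g ≤ u
    · right; right
      constructor
      · linarith
      · exact h4
    · by_cases h5 : c + g ≤ u + M
      · left
        exact Finset.mem_filter.2 ⟨Finset.mem_Ioc.2 ⟨not_le.1 h4, h5⟩, hc2⟩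
      · right; left
        constructor
        · exact not_le.1 h5
        · linarith
  have h2 : #A = #(A.image (fun c => c + g)) := by
    rw [Finset.card_image_of_injective]
    intro x y hxy
    exact add_right_cancel hxy
  have h3 : #A ≤ #B + (m.toNat + m.toNat) := by
    rw [h2]
    refine (Finset.card_le_card h1).trans ((Finset.card_union_le _ _).trans ?_)
    refine Nat.add_le_add_left ((Finset.card_union_le _ _).trans ?_) _
    rw [Int.card_Ioc, Int.card_Ioc]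
    have e1 : u + M + m - (u + M) = m := by ring
    have e2 : u - (u - m) = m := by ring
    rw [e1, e2]
  have h4 : ((m.toNat : ℕ) : ℝ) = |(g : ℝ)| := by
    have h5 : ((m.toNat : ℕ) : ℤ) = m := Int.toNat_of_nonneg (abs_nonneg g)
    have h6 : ((m.toNat : ℕ) : ℝ) = ((m : ℤ) : ℝ) := by exact_mod_cast h5
    rw [h6, hm, Int.cast_abs]
  have h5 : (#A : ℝ) ≤ #B + (m.toNat + m.toNat) := by exact_mod_cast h3
  rw [h4] at h5
  linarith

/-- Row SUM. -/
theorem SUM : SUM_stmt := by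
  classical
  intro W a b L X Y u₀ S G hL hX hY hd hper hXW hYW
  set P := (X ∪ Y) ×ˢ (X ∪ Y) with hP
  set g : ℤ × ℤ → ℤ := fun p => a * p.1 - b * p.2 with hg
  refine ⟨#P + ∑ p ∈ P, 2 * |(g p : ℝ)|, ?_⟩
  intro δ hδ0 hδ1 hG u M
  set J := {c ∈ Ioc u (u + M) | S c} with hJ
  set E := P.image (fun p => - g p) with hE
  set F : ℕ × ℕ → ℝ := fun t =>
    (#{c ∈ Ioc u (u + M) | G c ∧ S (c - ((t.1 : ℤ) * (a * u₀) - t.2 * (b * u₀)))} : ℝ) with hF
  have hL0 : (0 : ℝ) < (L : ℝ) ^ 2 := by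
    have : (0 : ℝ) < L := by exact_mod_cast hL
    positivity
  have hL1 : (1 : ℝ) ≤ (L : ℝ) ^ 2 := by
    have : (1 : ℝ) ≤ L := by exact_mod_cast hL
    nlinarith
  -- lower bound
  have h1 : δ * (L : ℝ) ^ 2 * #(J \ E) ≤ ∑ c ∈ J, (#{p ∈ P | G (c + a * p.1 - b * p.2)} : ℝ) := by
    calc δ * (L : ℝ) ^ 2 * #(J \ E) = ∑ c ∈ J \ E, δ * (L : ℝ) ^ 2 := by
          rw [Finset.sum_const, nsmul_eq_mul]; ring
      _ ≤ ∑ c ∈ J \ E, (#{p ∈ P | G (c + a * p.1 - b * p.2)} : ℝ) := by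
          refine Finset.sum_le_sum fun c hc => ?_
          obtain ⟨hc1, hc2⟩ := Finset.mem_sdiff.1 hc
          refine hG c (Finset.mem_filter.1 hc1).2 ?_
          intro z hz z' hz' h0
          refine hc2 (Finset.mem_image.2 ⟨(z, z'), Finset.mem_product.2 ⟨hz, hz'⟩, ?_⟩)
          simp only [hg]
          linear_combination -h0
      _ ≤ _ := Finset.sum_le_sum_of_subset_of_nonneg Finset.sdiff_subset fun c _ _ => by positivity
  -- exchange
  have h2 : ∑ c ∈ J, (#{p ∈ P | G (c + a * p.1 - b * p.2)} : ℝ) =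
      ∑ p ∈ P, (#{c ∈ J | G (c + a * p.1 - b * p.2)} : ℝ) := by
    have e1 : ∀ c ∈ J, (#{p ∈ P | G (c + a * p.1 - b * p.2)} : ℝ) =
        ∑ p ∈ P, (if G (c + a * p.1 - b * p.2) then (1 : ℝ) else 0) := fun c _ => by
      rw [Finset.card_filter]; push_cast; rfl
    have e2 : ∀ p ∈ P, (#{c ∈ J | G (c + a * p.1 - b * p.2)} : ℝ) =
        ∑ c ∈ J, (if G (c + a * p.1 - b * p.2) then (1 : ℝ) else 0) := fun p _ => by
      rw [Finset.card_filter]; push_cast; rfl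
    rw [Finset.sum_congr rfl e1, Finset.sum_congr rfl e2, Finset.sum_comm]
  -- upper bound
  have h3 : ∀ p ∈ P, (#{c ∈ J | G (c + a * p.1 - b * p.2)} : ℝ) ≤
      F (SUM_tau X p.1, SUM_tau X p.2) + 2 * |(g p : ℝ)| := by
    intro p hp
    obtain ⟨hp1, hp2⟩ := Finset.mem_product.1 hp
    have hdv : ∀ z ∈ X ∪ Y, (W : ℤ) ∣ z - (SUM_tau X z : ℤ) * u₀ := by
      intro z hz
      by_cases hzX : z ∈ X
      · simp only [SUM_tau, hzX, if_true]
        simpa using hXW z hzX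
      · have hzY : z ∈ Y := (Finset.mem_union.1 hz).resolve_left hzX
        simp only [SUM_tau, hzX, if_false]
        simpa using hYW z hzY
    obtain ⟨t1, ht1⟩ := hdv p.1 hp1
    obtain ⟨t2, ht2⟩ := hdv p.2 hp2
    set s : ℤ := ((SUM_tau X p.1 : ℕ) : ℤ) * (a * u₀) - ((SUM_tau X p.2 : ℕ) : ℤ) * (b * u₀) with hs
    have h4 : ∀ c : ℤ, S c ↔ S (c + g p - s) := by
      intro c
      have : c + g p - s = c + W * (a * t1 - b * t2) := by
        simp only [hg, hs]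
        linear_combination (a : ℤ) * ht1 - (b : ℤ) * ht2
      rw [this, hper]
    have h5 := SUM_shift (fun c => G c ∧ S (c - s)) u (g p) M
    have h6 : {c ∈ J | G (c + a * p.1 - b * p.2)} ⊆ {c ∈ Ioc u (u + M) | G (c + g p) ∧ S (c + g p - s)} := by
      intro c hc
      obtain ⟨hc1, hc2⟩ := Finset.mem_filter.1 hc
      obtain ⟨hc3, hc4⟩ := Finset.mem_filter.1 hc1
      refine Finset.mem_filter.2 ⟨hc3, ?_, (h4 c).1 hc4⟩
      have : c + g p = c + a * p.1 - b * p.2 := by simp only [hg]; ring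
      rw [this]
      exact hc2
    have h7 : (#{c ∈ J | G (c + a * p.1 - b * p.2)} : ℝ) ≤
        #{c ∈ Ioc u (u + M) | G (c + g p) ∧ S (c + g p - s)} := by
      exact_mod_cast Finset.card_le_card h6
    exact h7.trans h5
  have h4 : ∑ p ∈ P, (#{c ∈ J | G (c + a * p.1 - b * p.2)} : ℝ) ≤
      (L : ℝ) ^ 2 * ∑ t ∈ (range 2) ×ˢ (range 2), F t + ∑ p ∈ P, 2 * |(g p : ℝ)| := by
    refine (Finset.sum_le_sum h3).trans ?_
    rw [Finset.sum_add_distrib, SUM_sum2 X Y L hX hY hd F]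
  have h5 : (#J : ℝ) ≤ #(J \ E) + #P := by
    have e1 : #J ≤ #(J \ E) + #E := by
      have := Finset.card_le_card (show J ⊆ (J \ E) ∪ E by
        intro x hx
        by_cases h : x ∈ E
        · exact Finset.mem_union_right _ h
        · exact Finset.mem_union_left _ (Finset.mem_sdiff.2 ⟨hx, h⟩))
      exact this.trans (Finset.card_union_le _ _)
    have e2 : #E ≤ #P := Finset.card_image_le
    exact_mod_cast e1.trans (Nat.add_le_add_left e2 _)
  have hA0 : 0 ≤ ∑ p ∈ P, 2 * |(g p : ℝ)| := Finset.sum_nonneg fun p _ => by positivity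
  have h6 : δ * (L : ℝ) ^ 2 * #(J \ E) ≤
      (L : ℝ) ^ 2 * ∑ t ∈ (range 2) ×ˢ (range 2), F t + ∑ p ∈ P, 2 * |(g p : ℝ)| :=
    h1.trans (h2.le.trans h4)
  have hP0 : (0 : ℝ) ≤ #P := by positivity
  have h7 : δ * #J ≤ δ * #(J \ E) + #P := by
    have : δ * #J ≤ δ * (#(J \ E) + #P) := mul_le_mul_of_nonneg_left h5 hδ0
    nlinarith
  have h8 : δ * #(J \ E) ≤ ∑ t ∈ (range 2) ×ˢ (range 2), F t + ∑ p ∈ P, 2 * |(g p : ℝ)| := by
    have e1 : (L : ℝ) ^ 2 * (δ * #(J \ E)) ≤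
        (L : ℝ) ^ 2 * (∑ t ∈ (range 2) ×ˢ (range 2), F t + ∑ p ∈ P, 2 * |(g p : ℝ)|) := by
      nlinarith
    exact le_of_mul_le_mul_left e1 hL0
  show δ * #J - (#P + ∑ p ∈ P, 2 * |(g p : ℝ)|) ≤ ∑ t ∈ (range 2) ×ˢ (range 2), F t
  linarith

end Pool.Agent.AL
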